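import Mathlib
import Pool.Agent.Y19.TP.Stm

set_option autoImplicit false

/-!
# Bounded affine varieties over a normed algebraically closed field are finite
-/

namespace Pool.Agent.Y182.TP

open Pool.Agent.Y19.TP
open Polynomial Function
open scoped Classical

/-- A polynomial is bounded on a polydisc. -/
theorem eval_bdd {σ : Type} {U : Type} [NormedField U] (q : MvPolynomial σ U) (C : ℝ) :
    ∃ B : ℝ, ∀ x : σ → U, (∀ i, ‖x i‖ ≤ C) → ‖MvPolynomial.eval x q‖ ≤ B := by
  induction q using MvPolynomial.induction_on with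
  | C a => exact ⟨‖a‖, fun x _ => by simp⟩
  | add p q hp hq =>
    obtain ⟨B1, h1⟩ := hp
    obtain ⟨B2, h2⟩ := hq
    refine ⟨B1 + B2, fun x hx => ?_⟩
    rw [map_add]
    exact (norm_add_le _ _).trans (add_le_add (h1 x hx) (h2 x hx))
  | mul_X p i hp =>
    obtain ⟨B, h⟩ := hp
    refine ⟨|B| * |C|, fun x hx => ?_⟩
    rw [map_mul, MvPolynomial.eval_X, norm_mul]
    exact mul_le_mul ((h x hx).trans (le_abs_self _)) ((hx i).trans (le_abs_self _))
      (norm_nonneg _) (abs_nonneg _)

/-- A maximal ideal of a finitely generated algebra over an algebraically closed field is the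
kernel of a point. -/
theorem point_of_maximal {k A : Type} [Field k] [IsAlgClosed k] [CommRing A] [Algebra k A]
    [Algebra.FiniteType k A] (Q : Ideal A) (hQ : Q.IsMaximal) :
    ∃ ψ : A →ₐ[k] k, ∀ a ∈ Q, ψ a = 0 := by
  let : Field (A ⧸ Q) := Ideal.Quotient.field Q
  have : Algebra.FiniteType k (A ⧸ Q) :=
    Algebra.FiniteType.of_surjective (Ideal.Quotient.mkₐ k Q) (Ideal.Quotient.mkₐ_surjective k Q)
  have : Module.Finite k (A ⧸ Q) := finite_of_finite_type_of_isJacobsonRing k (A ⧸ Q)
  have hb : Function.Bijective (algebraMap k (A ⧸ Q)) :=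
    IsAlgClosed.algebraMap_bijective_of_isIntegral
  let e : k ≃ₐ[k] (A ⧸ Q) := AlgEquiv.ofBijective (Algebra.ofId k (A ⧸ Q)) hb
  refine ⟨(e.symm : (A ⧸ Q) →ₐ[k] k).comp (Ideal.Quotient.mkₐ k Q), fun a ha => ?_⟩
  have : Ideal.Quotient.mkₐ k Q a = 0 := by
    rw [Ideal.Quotient.mkₐ_eq_mk]
    exact Ideal.Quotient.eq_zero_iff_mem.mpr ha
  rw [AlgHom.comp_apply, this, map_zero]

/-- Points lift along an injective integral extension. -/
theorem lift_point {k A : Type} [Field k] [IsAlgClosed k] [CommRing A] [Algebra k A]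
    [Algebra.FiniteType k A] {s : ℕ} (g : MvPolynomial (Fin s) k →ₐ[k] A)
    (hg : Function.Injective g) (hi : g.IsIntegral) (φ : MvPolynomial (Fin s) k →ₐ[k] k) :
    ∃ ψ : A →ₐ[k] k, ∀ p, ψ (g p) = φ p := by
  let : Algebra (MvPolynomial (Fin s) k) A := g.toRingHom.toAlgebra
  have : Algebra.IsIntegral (MvPolynomial (Fin s) k) A := ⟨hi⟩
  have hsurj : Function.Surjective φ := fun c => ⟨MvPolynomial.C c, by
    rw [← MvPolynomial.algebraMap_eq, AlgHom.commutes]; rfl⟩
  have hM : (RingHom.ker φ).IsMaximal := RingHom.ker_isMaximal_of_surjective φ hsurj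
  obtain ⟨Q, hQ, hQM⟩ := Ideal.exists_ideal_over_maximal_of_isIntegral (S := A) (RingHom.ker φ)
    (by
      intro x hx
      have : g x = 0 := hx
      have hx0 : x = 0 := hg (by rw [this, map_zero])
      rw [hx0]
      exact Ideal.zero_mem _)
  obtain ⟨ψ, hψ⟩ := point_of_maximal (k := k) Q hQ
  refine ⟨ψ, fun p => ?_⟩
  have h1 : p - MvPolynomial.C (φ p) ∈ RingHom.ker φ := by
    rw [RingHom.mem_ker, map_sub]
    rw [← MvPolynomial.algebraMap_eq, AlgHom.commutes]
    exact sub_self _
  rw [← hQM] at h1
  have h2 : g (p - MvPolynomial.C (φ p)) ∈ Q := h1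
  have h3 := hψ _ h2
  rw [map_sub, map_sub, ← MvPolynomial.algebraMap_eq, AlgHom.commutes, AlgHom.commutes] at h3
  exact sub_eq_zero.mp h3

/-- **NOETH.** -/
theorem t_NOETH : NOETH := by
  intro σ _ U _ _ hunb S C hC
  by_cases htop : Ideal.span S = ⊤
  · -- the zero locus is empty
    have : {x : σ → U | ∀ q ∈ S, MvPolynomial.eval x q = 0} = ∅ := by
      ext x
      simp only [Set.mem_ofPred_eq, Set.mem_empty_iff_false, iff_false]
      intro hx
      have h1 : (1 : MvPolynomial σ U) ∈ Ideal.span S := by rw [htop]; trivial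
      have h2 : Ideal.span S ≤ RingHom.ker (MvPolynomial.eval x) :=
        Ideal.span_le.mpr fun q hq => hx q hq
      have h3 := h2 h1
      rw [RingHom.mem_ker, map_one] at h3
      exact one_ne_zero h3
    rw [this]
    exact Set.finite_empty
  · have : Nontrivial (MvPolynomial σ U ⧸ Ideal.span S) :=
      Ideal.Quotient.nontrivial_iff.mpr htop
    have : Algebra.FiniteType U (MvPolynomial σ U ⧸ Ideal.span S) :=
      Algebra.FiniteType.of_surjective (Ideal.Quotient.mkₐ U (Ideal.span S))
        (Ideal.Quotient.mkₐ_surjective U (Ideal.span S))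
    obtain ⟨s, g, hg, hi⟩ := exists_integral_inj_algHom_of_fg U
      (MvPolynomial σ U ⧸ Ideal.span S)
    rcases Nat.eq_zero_or_pos s with hs | hs
    · subst hs
      -- every class of a variable is integral over `U`
      have hint : ∀ i : σ, ∃ h : U[X], h.Monic ∧
          Polynomial.aeval (Ideal.Quotient.mk (Ideal.span S) (MvPolynomial.X i)) h = 0 := by
        intro i
        obtain ⟨h, hm, hz⟩ := hi (Ideal.Quotient.mk (Ideal.span S) (MvPolynomial.X i))
        let e : MvPolynomial (Fin 0) U ≃ₐ[U] U := MvPolynomial.isEmptyAlgEquiv U (Fin 0)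
        refine ⟨h.map (e : MvPolynomial (Fin 0) U →+* U), hm.map _, ?_⟩
        rw [Polynomial.aeval_def, Polynomial.eval₂_map]
        rw [← hz]
        congr 1
        refine RingHom.ext fun p => ?_
        obtain ⟨c, rfl⟩ := e.symm.surjective p
        have h1 : e.symm c = algebraMap U (MvPolynomial (Fin 0) U) c := by
          have := e.symm.commutes c
          simpa using this
        have h2 : (g : MvPolynomial (Fin 0) U →+* _) (e.symm c) =
            algebraMap U (MvPolynomial σ U ⧸ Ideal.span S) c := by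
          rw [h1]
          exact g.commutes c
        refine Eq.trans ?_ h2.symm
        simp
      choose h hm hz using hint
      refine (Set.Finite.pi' (fun i => (Polynomial.finite_setOfPred_isRoot (hm i).ne_zero))).subset ?_
      intro x hx i
      -- evaluate the relation at `x`
      have hle : ∀ a ∈ Ideal.span S, (MvPolynomial.aeval x : MvPolynomial σ U →ₐ[U] U) a = 0 := by
        intro a ha
        have h2 : Ideal.span S ≤ RingHom.ker (MvPolynomial.eval x) :=
          Ideal.span_le.mpr fun q hq => hx q hq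
        have := h2 ha
        rw [RingHom.mem_ker] at this
        simpa [MvPolynomial.coe_aeval_eq_eval] using this
      let ψ : (MvPolynomial σ U ⧸ Ideal.span S) →ₐ[U] U :=
        Ideal.Quotient.liftₐ (Ideal.span S) (MvPolynomial.aeval x) hle
      have h3 := congrArg ψ (hz i)
      rw [map_zero, ← Polynomial.aeval_algHom_apply] at h3
      have h4 : ψ (Ideal.Quotient.mk (Ideal.span S) (MvPolynomial.X i)) = x i := by
        have : ψ (Ideal.Quotient.mk (Ideal.span S) (MvPolynomial.X i)) =
            (MvPolynomial.aeval x : MvPolynomial σ U →ₐ[U] U) (MvPolynomial.X i) := rfl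
        rw [this, MvPolynomial.aeval_X]
      rw [h4] at h3
      simpa [Polynomial.IsRoot] using h3
    · exfalso
      let i0 : Fin s := ⟨0, hs⟩
      obtain ⟨q0, hq0⟩ := Ideal.Quotient.mk_surjective (g (MvPolynomial.X i0))
      obtain ⟨B, hB⟩ := eval_bdd q0 C
      obtain ⟨a, ha⟩ := hunb B
      obtain ⟨ψ, hψ⟩ := lift_point g hg hi
        (MvPolynomial.aeval (fun i : Fin s => if i = i0 then a else 0))
      have hψ0 : ψ (g (MvPolynomial.X i0)) = a := by
        rw [hψ, MvPolynomial.aeval_X]
        simp
      let x : σ → U := fun i => ψ (Ideal.Quotient.mk (Ideal.span S) (MvPolynomial.X i))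
      have hx : ∀ q : MvPolynomial σ U, MvPolynomial.eval x q =
          ψ (Ideal.Quotient.mk (Ideal.span S) q) := by
        intro q
        have : (MvPolynomial.aeval x : MvPolynomial σ U →ₐ[U] U) =
            ψ.comp (Ideal.Quotient.mkₐ U (Ideal.span S)) := by
          apply MvPolynomial.algHom_ext
          intro i
          rw [MvPolynomial.aeval_X]
          rfl
        have h5 := DFunLike.congr_fun this q
        have h7 : (MvPolynomial.aeval x : MvPolynomial σ U →ₐ[U] U) q = MvPolynomial.eval x q := by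
          rw [MvPolynomial.aeval_def, MvPolynomial.eval₂_eq_eval_map]
          simp
        rw [← h7]
        exact h5
      have hxS : ∀ q ∈ S, MvPolynomial.eval x q = 0 := by
        intro q hq
        rw [hx, Ideal.Quotient.eq_zero_iff_mem.mpr (Ideal.subset_span hq), map_zero]
      have h6 := hB x (hC x hxS)
      rw [hx, hq0, hψ0] at h6
      linarith

end Pool.Agent.Y182.TP
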